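import Pool.Agent.Q66.DS.Basic

set_option autoImplicit false

open MeasureTheory Set Metric
open Pool.Agent.Q66.DS

namespace Pool.Agent.Q224.DS

theorem sN_sub_ge (N : ℕ) (hN : 0 < N) (m M : ℤ) (hm : 0 ≤ m) (hM : m ≤ M) :
    ((M : ℝ) - m) / N ≤ sN N M - sN N m := by
  have hN' : (0 : ℝ) < N := by exact_mod_cast hN
  have e1 : sN N M = sN N m * sN N (M - m) := by
    rw [← sN_add]
    congr 1
    ring
  have e2 : ((M : ℝ) - m) / N + 1 ≤ sN N (M - m) := by
    unfold sN
    push_cast
    exact Real.add_one_le_exp _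
  have e3 : 1 ≤ sN N m := one_le_sN N m hm
  have e4 : (0 : ℝ) ≤ ((M : ℝ) - m) / N := by
    have : (m : ℝ) ≤ M := by exact_mod_cast hM
    exact div_nonneg (by linarith) hN'.le
  rw [e1]
  nlinarith

theorem count (N : ℕ) (hN : 0 < N) (J : Finset ℤ) (hJ : J ⊆ Finset.Ico 0 (N : ℤ)) (x0 r : ℝ)
    (hr : 0 ≤ r) :
    ((J.filter fun j => |sN N j - x0| ≤ r).card : ℝ) ≤ 2 * r * N + 1 := by
  have hN' : (0 : ℝ) < N := by exact_mod_cast hN
  set S := J.filter fun j => |sN N j - x0| ≤ r with hS
  rcases S.eq_empty_or_nonempty with h | h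
  · rw [h]
    simp
    positivity
  · have hm := S.min'_mem h
    have hM := S.max'_mem h
    set m := S.min' h
    set M := S.max' h
    have hmM : m ≤ M := S.min'_le _ hM
    have hsub : S ⊆ Finset.Icc m M := by
      intro x hx
      rw [Finset.mem_Icc]
      exact ⟨S.min'_le _ hx, S.le_max' _ hx⟩
    have hc := Finset.card_le_card hsub
    rw [Int.card_Icc] at hc
    have hc2 : (S.card : ℝ) ≤ (M : ℝ) - m + 1 := by
      have h1 : (S.card : ℤ) ≤ M + 1 - m := by
        have : (((M + 1 - m).toNat : ℕ) : ℤ) = M + 1 - m := Int.toNat_of_nonneg (by omega)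
        rw [← this]
        exact_mod_cast hc
      have h2 : ((S.card : ℤ) : ℝ) ≤ ((M + 1 - m : ℤ) : ℝ) := by exact_mod_cast h1
      push_cast at h2
      linarith
    have hm2 := (Finset.mem_filter.1 hm)
    have hM2 := (Finset.mem_filter.1 hM)
    have hm0 : 0 ≤ m := (Finset.mem_Ico.1 (hJ hm2.1)).1
    have h3 := sN_sub_ge N hN m M hm0 hmM
    have h4 : sN N M - sN N m ≤ 2 * r := by
      have := abs_le.1 hm2.2
      have := abs_le.1 hM2.2
      linarith
    have h5 : ((M : ℝ) - m) / N ≤ 2 * r := h3.trans h4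
    rw [div_le_iff₀ hN'] at h5
    linarith

theorem sum_kr_le (h2 : S_KRI) (α : ℝ) (h0 : 0 < α) (h1 : α < 1) : ∃ C : ℝ, 0 < C ∧
    ∀ (R : ℝ) (N : ℕ), 1 ≤ R → R ^ 2 ≤ N → ∀ J : Finset ℤ, J ⊆ Finset.Ico 0 (N : ℤ) →
    ∀ x0 : ℝ, ∑ j ∈ J, kr R (sN N j - x0) ≤ C * N * R ^ ((1 - α) / 2) := by
  obtain ⟨C, hC, h⟩ := h2 ((1 + α) / 2) (by linarith)
  refine ⟨3 * C, by positivity, ?_⟩
  intro R N hR hRN J hJ x0
  have hN' : (0 : ℝ) < N := by nlinarith
  have hN : 0 < N := by exact_mod_cast hN'
  have hR0 : 0 < R := by linarith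
  have key := h (∑ j ∈ J, Measure.dirac (sN N j)) R (3 * N) x0 inferInstance hR0 (by positivity) ?_
  · rw [integral_finsetSum_measure] at key
    · simp only [integral_dirac] at key
      refine key.trans (le_of_eq ?_)
      have : (1 : ℝ) - (1 + α) / 2 = (1 - α) / 2 := by ring
      rw [this]
      ring
    · intro j _
      refine Integrable.mono' (integrable_const (4 * R)) ?_ (Filter.Eventually.of_forall fun a => ?_)
      · exact ((continuous_kr R hR0.le).comp (by fun_prop)).aestronglyMeasurable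
      · rw [Real.norm_of_nonneg (kr_nonneg _ _ hR0.le)]
        exact kr_le _ _ hR0.le
  · intro r hr
    have hr0 : 0 < r := lt_of_lt_of_le (by positivity) hr
    have e1 : (∑ j ∈ J, Measure.dirac (sN N j)) (closedBall x0 r) =
        (((J.filter fun j => |sN N j - x0| ≤ r).card : ℕ) : ENNReal) := by
      rw [Measure.finsetSum_apply]
      rw [Finset.card_filter]
      push_cast
      refine Finset.sum_congr rfl fun j _ => ?_
      rw [Measure.dirac_apply' _ measurableSet_closedBall]
      by_cases hj : |sN N j - x0| ≤ r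
      · rw [if_pos hj, indicator_of_mem]
        · rfl
        · rw [mem_closedBall, Real.dist_eq]; exact hj
      · rw [if_neg hj, indicator_of_notMem]
        rw [mem_closedBall, Real.dist_eq]; exact hj
    rw [e1]
    have e2 : ((J.filter fun j => |sN N j - x0| ≤ r).card : ℝ) ≤ 3 * N * r ^ ((1 + α) / 2) := by
      rcases le_total r 1 with hr1 | hr1
      · have c1 := count N hN J hJ x0 r hr0.le
        have c2 : 1 ≤ r * N := by
          have : 1 / R * N ≤ r * N := mul_le_mul_of_nonneg_right hr hN'.le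
          have c3 : 1 ≤ 1 / R * N := by
            rw [div_mul_eq_mul_div, one_mul, le_div_iff₀ hR0]
            nlinarith
          linarith
        have c4 : r ≤ r ^ ((1 + α) / 2) := by
          conv_lhs => rw [← Real.rpow_one r]
          exact Real.rpow_le_rpow_of_exponent_ge hr0 hr1 (by linarith)
        nlinarith
      · have c1 : ((J.filter fun j => |sN N j - x0| ≤ r).card : ℝ) ≤ N := by
          have := Finset.card_le_card ((Finset.filter_subset (fun j => |sN N j - x0| ≤ r) J).trans hJ)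
          rw [Int.card_Ico] at this
          simp only [sub_zero, Int.toNat_natCast] at this
          exact_mod_cast this
        have c2 : 1 ≤ r ^ ((1 + α) / 2) := Real.one_le_rpow hr1 (by linarith)
        nlinarith
    rw [← ENNReal.ofReal_natCast]
    exact ENNReal.ofReal_le_ofReal e2

theorem GG_eq (μ : Measure ℝ) [IsProbabilityMeasure μ] (N : ℕ) (R : ℝ) (hR : 0 < R) (y : ℤ → ℝ)
    (i j : ℤ) : GG μ N R y i j = ∫ p : ℝ × ℝ, (∫ ξ in R..(2 * R),
      e ((sN N i * p.2 - sN N j * p.1 - (y i - y j)) * ξ)) ∂(μ.prod μ) := by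
  unfold GG
  have hle : R ≤ 2 * R := by linarith
  simp only [intervalIntegral.integral_of_le hle]
  rw [integral_integral_swap (f := fun (p : ℝ × ℝ) (ξ : ℝ) =>
    e ((sN N i * p.2 - sN N j * p.1 - (y i - y j)) * ξ))]
  · refine integral_congr_ae (Filter.Eventually.of_forall fun ξ => ?_)
    simp only
    have e1 : ∀ p : ℝ × ℝ, e ((sN N i * p.2 - sN N j * p.1 - (y i - y j)) * ξ) =
        (starRingEnd ℂ) (e (sN N j * ξ * p.1)) * (e (sN N i * ξ * p.2) * e (-((y i - y j) * ξ))) := by
      intro p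
      rw [conj_e, ← e_add, ← e_add]
      congr 1
      ring
    simp only [e1]
    rw [integral_prod_mul (f := fun a => (starRingEnd ℂ) (e (sN N j * ξ * a)))
      (g := fun a => e (sN N i * ξ * a) * e (-((y i - y j) * ξ)))]
    rw [integral_conj, integral_mul_const]
    unfold ch
    ring
  · refine Integrable.mono' (integrable_const (1 : ℝ)) ?_ (Filter.Eventually.of_forall fun a => ?_)
    · refine Continuous.aestronglyMeasurable ?_
      unfold Function.uncurry
      exact continuous_e.comp (by fun_prop)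
    · simp only [Function.uncurry]
      rw [norm_e]

theorem integrable_kr (ν : Measure (ℝ × ℝ)) [IsFiniteMeasure ν] (R : ℝ) (hR : 0 < R) (f : ℝ × ℝ → ℝ)
    (hf : Continuous f) : Integrable (fun p => kr R (f p)) ν := by
  refine Integrable.mono' (integrable_const (4 * R)) ?_ (Filter.Eventually.of_forall fun a => ?_)
  · exact ((continuous_kr R hR.le).comp hf).aestronglyMeasurable
  · rw [Real.norm_of_nonneg (kr_nonneg _ _ hR.le)]
    exact kr_le _ _ hR.le

theorem integrable_kr1 (ν : Measure ℝ) [IsFiniteMeasure ν] (R : ℝ) (hR : 0 < R) (f : ℝ → ℝ)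
    (hf : Continuous f) : Integrable (fun p => kr R (f p)) ν := by
  refine Integrable.mono' (integrable_const (4 * R)) ?_ (Filter.Eventually.of_forall fun a => ?_)
  · exact ((continuous_kr R hR.le).comp hf).aestronglyMeasurable
  · rw [Real.norm_of_nonneg (kr_nonneg _ _ hR.le)]
    exact kr_le _ _ hR.le

theorem GG_le (h1 : S_OSC) (μ : Measure ℝ) [IsProbabilityMeasure μ] (N : ℕ) (R : ℝ) (hR : 0 < R)
    (y : ℤ → ℝ) (i j : ℤ) : ‖GG μ N R y i j‖ ≤
      ∫ a', ∫ a, kr R (sN N i * a - sN N j * a' - (y i - y j)) ∂μ ∂μ := by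
  rw [GG_eq μ N R hR y i j]
  refine (norm_integral_le_integral_norm _).trans ?_
  have hint : Integrable (fun p : ℝ × ℝ => kr R (sN N i * p.2 - sN N j * p.1 - (y i - y j)))
      (μ.prod μ) := integrable_kr _ R hR _ (by fun_prop)
  have h2 : ∫ p : ℝ × ℝ, ‖∫ ξ in R..(2 * R),
      e ((sN N i * p.2 - sN N j * p.1 - (y i - y j)) * ξ)‖ ∂(μ.prod μ) ≤
      ∫ p : ℝ × ℝ, kr R (sN N i * p.2 - sN N j * p.1 - (y i - y j)) ∂(μ.prod μ) := by
    refine integral_mono_of_nonneg (Filter.Eventually.of_forall fun p => norm_nonneg _) hint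
      (Filter.Eventually.of_forall fun p => ?_)
    exact h1 R R (2 * R) _ hR (by linarith) (by linarith)
  refine h2.trans (le_of_eq ?_)
  rw [integral_prod _ hint]

theorem t_AFF (h1 : S_OSC) (h2 : S_KRI) : S_AFF := by
  intro α C L h0 hα hC
  obtain ⟨C1, hC1, hk1⟩ := h2 α hα
  obtain ⟨C2, hC2, hk2⟩ := sum_kr_le h2 α h0 hα
  refine ⟨C1 * C ^ 2 + C2, by positivity, ?_⟩
  intro μ hμ R N hR hRN J y hJ x1 x2 K ρ hK hρ hρ1 hy
  obtain ⟨hp, _, hF⟩ := hμ
  have hR0 : 0 < R := by linarith
  have hN' : (0 : ℝ) < N := by nlinarith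
  have hcard : (J.card : ℝ) ≤ N := by
    have := Finset.card_le_card hJ
    rw [Int.card_Ico] at this
    simp only [sub_zero, Int.toNat_natCast] at this
    exact_mod_cast this
  -- the double integral
  have s1 : ∑ i ∈ J, ∑ j ∈ J, ‖GG μ N R y i j‖ ≤
      ∑ i ∈ J, ∑ j ∈ J, ∫ a', ∫ a, kr R (sN N i * a - sN N j * a' - (y i - y j)) ∂μ ∂μ :=
    Finset.sum_le_sum fun i _ => Finset.sum_le_sum fun j _ => GG_le h1 μ N R hR0 y i j
  have hint : ∀ i j : ℤ, Integrable (fun a' => ∫ a, kr R (sN N i * a - sN N j * a' - (y i - y j)) ∂μ)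
      μ := by
    intro i j
    exact (integrable_kr (μ.prod μ) R hR0
      (fun p => sN N i * p.2 - sN N j * p.1 - (y i - y j)) (by fun_prop)).integral_prod_left
  have s2 : ∑ i ∈ J, ∑ j ∈ J, ∫ a', ∫ a, kr R (sN N i * a - sN N j * a' - (y i - y j)) ∂μ ∂μ =
      ∫ a', ∑ i ∈ J, ∑ j ∈ J, ∫ a, kr R (sN N i * a - sN N j * a' - (y i - y j)) ∂μ ∂μ := by
    rw [integral_finset_sum _ (fun i _ => integrable_finset_sum _ fun j _ => hint i j)]
    refine Finset.sum_congr rfl fun i _ => ?_
    rw [integral_finset_sum _ (fun j _ => hint i j)]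
  set A : ℝ := (J.card : ℝ) ^ 2 * (C1 * C * R ^ (1 - α)) with hA
  set B : ℝ := (N : ℝ) * ((1 + 2 * R * K) * (1 / ρ) * (C2 * N * R ^ ((1 - α) / 2))) with hB
  have hA0 : 0 ≤ A := by positivity
  have hB0 : 0 ≤ B := by positivity
  -- pointwise bound
  have near : ∀ a' : ℝ, ∑ i ∈ J, ∑ j ∈ J, ∫ a, kr R (sN N i * a - sN N j * a' - (y i - y j)) ∂μ ≤ A := by
    intro a'
    have : ∀ i ∈ J, ∀ j ∈ J, ∫ a, kr R (sN N i * a - sN N j * a' - (y i - y j)) ∂μ ≤
        C1 * C * R ^ (1 - α) := by
      intro i hi j hj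
      have hs := sN_mem N hJ hi
      have hs0 : sN N i ≠ 0 := (sN_pos N i).ne'
      have t1 : ∫ a, kr R (sN N i * a - sN N j * a' - (y i - y j)) ∂μ ≤
          ∫ a, kr R (a - (sN N j * a' + (y i - y j)) / sN N i) ∂μ := by
        refine integral_mono (integrable_kr1 μ R hR0 _ (by fun_prop))
          (integrable_kr1 μ R hR0 _ (by fun_prop)) fun a => ?_
        simp only
        have e1 : sN N i * a - sN N j * a' - (y i - y j) =
            sN N i * (a - (sN N j * a' + (y i - y j)) / sN N i) := by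
          field_simp
          ring
        rw [e1]
        have := kr_mul_le R (sN N i) 1 (a - (sN N j * a' + (y i - y j)) / sN N i) hR0 one_pos le_rfl
          (hs.1.trans (le_abs_self _))
        simpa using this
      refine t1.trans (hk1 μ R C _ inferInstance hR0 hC.le fun r hr => ?_)
      exact hF _ r (lt_of_lt_of_le (by positivity) hr)
    calc _ ≤ ∑ i ∈ J, ∑ j ∈ J, C1 * C * R ^ (1 - α) :=
          Finset.sum_le_sum fun i hi => Finset.sum_le_sum fun j hj => this i hi j hj
      _ = A := by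
          simp only [Finset.sum_const, nsmul_eq_mul]
          rw [hA]; ring
  have far : ∀ a' : ℝ, a' ∉ closedBall x2 ρ →
      ∑ i ∈ J, ∑ j ∈ J, ∫ a, kr R (sN N i * a - sN N j * a' - (y i - y j)) ∂μ ≤ B := by
    intro a' ha'
    rw [mem_closedBall, Real.dist_eq, not_le] at ha'
    have hb' : a' - x2 ≠ 0 := by
      intro h
      rw [h, abs_zero] at ha'
      linarith
    have : ∀ i ∈ J, ∑ j ∈ J, ∫ a, kr R (sN N i * a - sN N j * a' - (y i - y j)) ∂μ ≤
        (1 + 2 * R * K) * (1 / ρ) * (C2 * N * R ^ ((1 - α) / 2)) := by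
      intro i hi
      rw [← integral_finset_sum _ (fun j _ => integrable_kr1 μ R hR0 _ (by fun_prop))]
      have t1 : ∀ a : ℝ, ∑ j ∈ J, kr R (sN N i * a - sN N j * a' - (y i - y j)) ≤
          (1 + 2 * R * K) * (1 / ρ) * (C2 * N * R ^ ((1 - α) / 2)) := by
        intro a
        have t2 : ∀ j ∈ J, kr R (sN N i * a - sN N j * a' - (y i - y j)) ≤
            (1 + 2 * R * K) * (1 / ρ) * kr R (sN N j - sN N i * (a - x2) / (a' - x2)) := by
          intro j hj
          set δ : ℝ := (y j - x1 - x2 * sN N j) - (y i - x1 - x2 * sN N i) with hδ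
          have d1 : |δ| ≤ 2 * K := by
            have := hy i hi
            have := hy j hj
            rw [hδ]
            refine (abs_sub _ _).trans ?_
            linarith
          have d2 : sN N i * a - sN N j * a' - (y i - y j) =
              (a' - x2) * (-(sN N j - sN N i * (a - x2) / (a' - x2))) + δ := by
            rw [hδ]
            field_simp
            ring
          rw [d2]
          refine (kr_add_le R _ δ hR0).trans ?_
          have d3 := kr_mul_le R (a' - x2) ρ (-(sN N j - sN N i * (a - x2) / (a' - x2))) hR0 hρ hρ1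
            ha'.le
          rw [kr_neg] at d3
          have d4 : 1 + R * |δ| ≤ 1 + 2 * R * K := by nlinarith
          have d5 := kr_nonneg R (sN N j - sN N i * (a - x2) / (a' - x2)) hR0.le
          calc (1 + R * |δ|) * kr R ((a' - x2) * (-(sN N j - sN N i * (a - x2) / (a' - x2))))
              ≤ (1 + 2 * R * K) * (1 / ρ * kr R (sN N j - sN N i * (a - x2) / (a' - x2))) := by
                apply mul_le_mul d4 d3 (kr_nonneg _ _ hR0.le) (by positivity)
            _ = _ := by ring
        refine (Finset.sum_le_sum t2).trans ?_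
        rw [← Finset.mul_sum]
        refine mul_le_mul_of_nonneg_left ?_ (by positivity)
        exact hk2 R N hR hRN J hJ _
      calc ∫ a, ∑ j ∈ J, kr R (sN N i * a - sN N j * a' - (y i - y j)) ∂μ
          ≤ ∫ _a, (1 + 2 * R * K) * (1 / ρ) * (C2 * N * R ^ ((1 - α) / 2)) ∂μ := by
            refine integral_mono ?_ (integrable_const _) t1
            exact integrable_finset_sum _ fun j _ => integrable_kr1 μ R hR0 _ (by fun_prop)
        _ = _ := by simp
    calc _ ≤ ∑ i ∈ J, (1 + 2 * R * K) * (1 / ρ) * (C2 * N * R ^ ((1 - α) / 2)) :=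
          Finset.sum_le_sum this
      _ ≤ B := by
          simp only [Finset.sum_const, nsmul_eq_mul]
          rw [hB]
          exact mul_le_mul_of_nonneg_right hcard (by positivity)
  have pt : ∀ a' : ℝ, ∑ i ∈ J, ∑ j ∈ J, ∫ a, kr R (sN N i * a - sN N j * a' - (y i - y j)) ∂μ ≤
      (closedBall x2 ρ).indicator (fun _ => A) a' + B := by
    intro a'
    by_cases ha : a' ∈ closedBall x2 ρ
    · rw [indicator_of_mem ha]
      have := near a'
      linarith
    · rw [indicator_of_notMem ha]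
      have := far a' ha
      linarith
  have hiA : Integrable ((closedBall x2 ρ).indicator (fun _ => A)) μ :=
    (integrable_const A).indicator measurableSet_closedBall
  have s3 : ∫ a', ∑ i ∈ J, ∑ j ∈ J, ∫ a, kr R (sN N i * a - sN N j * a' - (y i - y j)) ∂μ ∂μ ≤
      ∫ a', ((closedBall x2 ρ).indicator (fun _ => A) a' + B) ∂μ := by
    refine integral_mono ?_ (hiA.add (integrable_const B)) pt
    exact integrable_finset_sum _ fun i _ => integrable_finset_sum _ fun j _ => hint i j
  have s4 : ∫ a', ((closedBall x2 ρ).indicator (fun _ => A) a' + B) ∂μ = μ.real (closedBall x2 ρ) * A + B := by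
    rw [integral_add hiA (integrable_const B), integral_indicator measurableSet_closedBall]
    simp
  have s5 : μ.real (closedBall x2 ρ) ≤ C * ρ ^ α := by
    have := hF x2 ρ hρ
    exact ENNReal.toReal_le_of_le_ofReal (by positivity) this
  have s6 : ∑ i ∈ J, ∑ j ∈ J, ‖GG μ N R y i j‖ ≤ C * ρ ^ α * A + B := by
    refine s1.trans ?_
    rw [s2]
    refine s3.trans ?_
    rw [s4]
    have := mul_le_mul_of_nonneg_right s5 hA0
    linarith
  refine s6.trans ?_
  have f1 : C * ρ ^ α * A ≤ (C1 * C ^ 2 + C2) * (J.card : ℝ) ^ 2 * R ^ (1 - α) * ρ ^ α := by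
    have : 0 ≤ C2 * (J.card : ℝ) ^ 2 * R ^ (1 - α) * ρ ^ α := by positivity
    calc C * ρ ^ α * A = C1 * C ^ 2 * (J.card : ℝ) ^ 2 * R ^ (1 - α) * ρ ^ α := by rw [hA]; ring
      _ ≤ C1 * C ^ 2 * (J.card : ℝ) ^ 2 * R ^ (1 - α) * ρ ^ α +
          C2 * (J.card : ℝ) ^ 2 * R ^ (1 - α) * ρ ^ α := by linarith
      _ = _ := by ring
  have f2 : B ≤ (C1 * C ^ 2 + C2) * (1 + 2 * R * K) * (N : ℝ) ^ 2 * R ^ ((1 - α) / 2) / ρ := by
    have : 0 ≤ C1 * C ^ 2 * (1 + 2 * R * K) * (N : ℝ) ^ 2 * R ^ ((1 - α) / 2) / ρ := by positivity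
    calc B = C2 * (1 + 2 * R * K) * (N : ℝ) ^ 2 * R ^ ((1 - α) / 2) / ρ := by rw [hB]; ring
      _ ≤ C1 * C ^ 2 * (1 + 2 * R * K) * (N : ℝ) ^ 2 * R ^ ((1 - α) / 2) / ρ +
          C2 * (1 + 2 * R * K) * (N : ℝ) ^ 2 * R ^ ((1 - α) / 2) / ρ := by linarith
      _ = _ := by ring
  linarith

end Pool.Agent.Q224.DS
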