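import Mathlib

/-!
# Rows of threads: cuts of one colour
-/

set_option autoImplicit false

namespace Q224.DS

/-- The codes of the vertices: a tag, four numbers and the number of the copy. -/
abbrev Cd := ℕ × (ℕ × ℕ × ℕ × ℕ) × ℕ

/-- The relation of one colour. -/
def rel0 (h n : ℕ) (d e : Cd) : Bool :=
  (decide (d.1 = 0) && (decide (e.1 = h) && decide (e.2.1.2.2.1 = 0))) ||
  ((decide (d.1 = h) && (decide (e.1 = 1) && decide (d.2.1.2.2.1 = n))) ||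
  ((decide (d.1 = h) && (decide (e.1 = 4) && (decide (e.2.1.1 = d.2.1.1) &&
    (decide (e.2.1.2.2.1 = d.2.1.2.2.1) && decide (e.2.1.2.2.2 = 0))))) ||
  ((decide (d.1 = 4) && (decide (e.1 = h) && (decide (e.2.1.1 = d.2.1.1) &&
    (decide (e.2.1.2.2.1 = d.2.1.2.2.1 + 1) && decide (d.2.1.2.2.2 + 1 = n))))) ||
  (decide (d.1 = 4) && (decide (e.1 = 4) && (decide (e.2.1.1 = d.2.1.1) &&
    (decide (e.2.1.2.1 = d.2.1.2.1) && (decide (e.2.1.2.2.1 = d.2.1.2.2.1) &&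
    decide (e.2.1.2.2.2 = d.2.1.2.2.2 + 1)))))))))

theorem rel0_iff {h n : ℕ} {d e : Cd} : rel0 h n d e = true ↔
    (d.1 = 0 ∧ e.1 = h ∧ e.2.1.2.2.1 = 0) ∨
    (d.1 = h ∧ e.1 = 1 ∧ d.2.1.2.2.1 = n) ∨
    (d.1 = h ∧ e.1 = 4 ∧ e.2.1.1 = d.2.1.1 ∧ e.2.1.2.2.1 = d.2.1.2.2.1 ∧ e.2.1.2.2.2 = 0) ∨
    (d.1 = 4 ∧ e.1 = h ∧ e.2.1.1 = d.2.1.1 ∧ e.2.1.2.2.1 = d.2.1.2.2.1 + 1 ∧
      d.2.1.2.2.2 + 1 = n) ∨
    (d.1 = 4 ∧ e.1 = 4 ∧ e.2.1.1 = d.2.1.1 ∧ e.2.1.2.1 = d.2.1.2.1 ∧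
      e.2.1.2.2.1 = d.2.1.2.2.1 ∧ e.2.1.2.2.2 = d.2.1.2.2.2 + 1) := by
  simp only [rel0, Bool.or_eq_true, Bool.and_eq_true, decide_eq_true_eq]

/-- Separation of two vertices by a set of vertices. -/
def Sep {V : Type*} (G : SimpleGraph V) (S : Finset V) (s t : V) : Prop :=
  ∃ (hs : s ∉ S) (ht : t ∉ S), ¬ (G.induce {v | v ∉ S}).Reachable ⟨s, hs⟩ ⟨t, ht⟩

/-- The side of the source. -/
def Side (h : ℕ) (X Y : ℕ → ℕ) (d : Cd) : Prop :=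
  d.1 = 0 ∨ (d.1 = h ∧ d.2.1.2.2.1 ≤ X d.2.1.1) ∨
    (d.1 = 4 ∧ (d.2.1.2.2.1 < X d.2.1.1 ∨
      (d.2.1.2.2.1 = X d.2.1.1 ∧ d.2.1.2.2.2 < Y d.2.1.2.1)))

theorem side_step {h n k : ℕ} {X Y : ℕ → ℕ} (hh0 : h ≠ 0) (hh1 : h ≠ 1) (hh4 : h ≠ 4)
    (hX : ∀ l < k, X l < n) (hY : ∀ l < k, Y l < n) {d e : Cd}
    (hd : 1 < d.1 → d.2.1.1 < k ∧ d.2.1.2.1 < k) (he : 1 < e.1 → e.2.1.1 < k ∧ e.2.1.2.1 < k)
    (hd' : ¬ (d.1 = 4 ∧ d.2.1.2.2.1 = X d.2.1.1 ∧ d.2.1.2.2.2 = Y d.2.1.2.1))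
    (he' : ¬ (e.1 = 4 ∧ e.2.1.2.2.1 = X e.2.1.1 ∧ e.2.1.2.2.2 = Y e.2.1.2.1))
    (hr : rel0 h n d e = true) : Side h X Y d ↔ Side h X Y e := by
  obtain ⟨a, ⟨l, m, p, q⟩, r⟩ := d
  obtain ⟨a', ⟨l', m', p', q'⟩, r'⟩ := e
  rw [rel0_iff] at hr
  unfold Side
  simp only at *
  rcases hr with ⟨h1, h2, h3⟩ | ⟨h1, h2, h3⟩ | ⟨h1, h2, h3, h4, h5⟩ | ⟨h1, h2, h3, h4, h5⟩ |
    ⟨h1, h2, h3, h4, h5, h6⟩
  · subst h1 h2 h3
    simp
  · subst h1 h2 h3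
    have h4 := hX l (hd (by omega)).1
    simp [hh0, hh4]
    omega
  · subst h1 h2 h3 h4 h5
    have h6 := hX l' (he (by omega)).1
    have h7 := hY m' (he (by omega)).2
    simp [hh0, hh4, Ne.symm hh4] at *
    omega
  · subst h1 h2 h3 h4
    have h6 := hX l' (hd (by omega)).1
    have h7 := hY m (hd (by omega)).2
    simp [hh0, hh4, Ne.symm hh4] at *
    omega
  · subst h1 h2 h3 h4 h5 h6
    simp at *
    omega

theorem sep_of_sol {V : Type*} {G : SimpleGraph V} {ψ : V → Cd} {h n k : ℕ} {X Y : ℕ → ℕ}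
    (hh0 : h ≠ 0) (hh1 : h ≠ 1) (hh4 : h ≠ 4)
    (hX : ∀ l < k, X l < n) (hY : ∀ l < k, Y l < n)
    (hv : ∀ v, 1 < (ψ v).1 → (ψ v).2.1.1 < k ∧ (ψ v).2.1.2.1 < k)
    (hadj : ∀ u v, G.Adj u v → rel0 h n (ψ u) (ψ v) = true ∨ rel0 h n (ψ v) (ψ u) = true)
    {S : Finset V} (hS : ∀ v, (ψ v).1 = 4 → (ψ v).2.1.2.2.1 = X (ψ v).2.1.1 →
      (ψ v).2.1.2.2.2 = Y (ψ v).2.1.2.1 → v ∈ S)
    {s t : V} (hs : (ψ s).1 = 0) (ht : (ψ t).1 = 1) (hsS : s ∉ S) (htS : t ∉ S) :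
    Sep G S s t := by
  refine ⟨hsS, htS, fun hr => ?_⟩
  obtain ⟨w⟩ := hr
  have key : ∀ (a b : {v | v ∉ S}), (G.induce {v | v ∉ S}).Walk a b →
      (Side h X Y (ψ a) ↔ Side h X Y (ψ b)) := by
    intro a b w
    induction w with
    | nil => exact Iff.rfl
    | @cons a b c hab w ih =>
      refine Iff.trans ?_ ih
      have ha : ¬ ((ψ a).1 = 4 ∧ (ψ a).2.1.2.2.1 = X (ψ a).2.1.1 ∧
          (ψ a).2.1.2.2.2 = Y (ψ a).2.1.2.1) := fun h3 => a.2 (hS _ h3.1 h3.2.1 h3.2.2)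
      have hb : ¬ ((ψ b).1 = 4 ∧ (ψ b).2.1.2.2.1 = X (ψ b).2.1.1 ∧
          (ψ b).2.1.2.2.2 = Y (ψ b).2.1.2.1) := fun h3 => b.2 (hS _ h3.1 h3.2.1 h3.2.2)
      rcases hadj a b hab with h1 | h1
      · exact side_step hh0 hh1 hh4 hX hY (hv a) (hv b) ha hb h1
      · exact (side_step hh0 hh1 hh4 hX hY (hv b) (hv a) hb ha h1).symm
  have h1 := (key _ _ w).mp (Or.inl hs)
  unfold Side at h1
  simp only at h1
  rw [ht] at h1
  omega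

/-- Reachability of a surviving vertex. -/
def Rch {V : Type*} (G : SimpleGraph V) (S : Finset V) (s : V) (v : V) : Prop :=
  ∃ (hs : s ∉ S) (hv : v ∉ S), (G.induce {v | v ∉ S}).Reachable ⟨s, hs⟩ ⟨v, hv⟩

theorem Rch.step {V : Type*} {G : SimpleGraph V} {S : Finset V} {s u v : V} (h : Rch G S s u)
    (ha : G.Adj u v) (hv : v ∉ S) : Rch G S s v := by
  obtain ⟨hs, hu, hr⟩ := h
  exact ⟨hs, hv, hr.trans (SimpleGraph.Adj.reachable (by exact ha))⟩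

theorem row_cut {V : Type*} {G : SimpleGraph V} {ψ : V → Cd} {h n k : ℕ}
    (hadj : ∀ u v, rel0 h n (ψ u) (ψ v) = true → G.Adj u v)
    {S : Finset V} {s t : V} (hs : (ψ s).1 = 0) (ht : (ψ t).1 = 1) (hsep : Sep G S s t)
    {l : ℕ} (hhub : ∀ p ≤ n, ∃ v, v ∉ S ∧ (ψ v).1 = h ∧ (ψ v).2.1.1 = l ∧
      (ψ v).2.1.2.2.1 = p) :
    ∃ p < n, ∀ m < k, ∃ q < n, ∀ v, (ψ v).1 = 4 → (ψ v).2.1 = (l, m, p, q) → v ∈ S := by
  by_contra hc
  push Not at hc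
  obtain ⟨hsS, htS, hnr⟩ := hsep
  have h0 : Rch G S s s := ⟨hsS, hsS, SimpleGraph.Reachable.refl _⟩
  have key : ∀ p ≤ n, ∀ v, v ∉ S → (ψ v).1 = h → (ψ v).2.1.1 = l → (ψ v).2.1.2.2.1 = p →
      Rch G S s v := by
    intro p
    induction p with
    | zero =>
      intro _ v hv h1 h2 h3
      exact h0.step (hadj _ _ (rel0_iff.mpr (Or.inl ⟨hs, h1, h3⟩))) hv
    | succ p ih =>
      intro hp v hv h1 h2 h3
      obtain ⟨u, hu, u1, u2, u3⟩ := hhub p (by omega)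
      have hru := ih (by omega) u hu u1 u2 u3
      obtain ⟨m, hm, hq⟩ := hc p (by omega)
      have key2 : ∀ q < n, ∀ w, w ∉ S → (ψ w).1 = 4 → (ψ w).2.1 = (l, m, p, q) →
          Rch G S s w := by
        intro q
        induction q with
        | zero =>
          intro _ w hw w1 w2
          refine hru.step (hadj _ _ (rel0_iff.mpr (Or.inr (Or.inr (Or.inl ⟨u1, w1, ?_, ?_, ?_⟩)))))
            hw
          · rw [w2, u2]
          · rw [w2, u3]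
          · rw [w2]
        | succ q ih2 =>
          intro hq' w hw w1 w2
          obtain ⟨w', w1', w2', w3'⟩ := hq q (by omega)
          have hr' := ih2 (by omega) w' w3' w1' w2'
          refine hr'.step (hadj _ _ (rel0_iff.mpr (Or.inr (Or.inr (Or.inr (Or.inr
            ⟨w1', w1, ?_, ?_, ?_, ?_⟩)))))) hw <;> rw [w2, w2']
      obtain ⟨w, w1, w2, w3⟩ := hq (n - 1) (by omega)
      have hrw := key2 (n - 1) (by omega) w w3 w1 w2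
      refine hrw.step (hadj _ _ (rel0_iff.mpr (Or.inr (Or.inr (Or.inr (Or.inl
        ⟨w1, h1, ?_, ?_, ?_⟩)))))) hv
      · rw [w2, h2]
      · rw [w2, h3]
      · rw [w2]
        simp only
        omega
  obtain ⟨u, hu, u1, u2, u3⟩ := hhub n le_rfl
  obtain ⟨_, _, hr⟩ := (key n le_rfl u hu u1 u2 u3).step
    (hadj _ _ (rel0_iff.mpr (Or.inr (Or.inl ⟨u1, ht, u3⟩)))) htS
  exact hnr hr

theorem exists_alive {V : Type*} {φ : V → Cd} {K : ℕ} {S : Finset V} (hS : S.card ≤ K)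
    {a : ℕ} {c : ℕ × ℕ × ℕ × ℕ} (h : ∀ r ≤ K, ∃ v, φ v = (a, c, r)) :
    ∃ v, v ∉ S ∧ ∃ r, φ v = (a, c, r) := by
  classical
  by_contra hc
  push Not at hc
  have hc' : ∀ v r, φ v = (a, c, r) → v ∈ S := by
    intro v r h1
    by_contra h2
    exact hc v h2 r h1
  haveI : Nonempty V := ⟨(h 0 (Nat.zero_le _)).choose⟩
  choose! f hf using h
  have h1 : (Finset.range (K + 1)).card ≤ S.card := by
    refine Finset.card_le_card_of_injOn f (fun r hr => ?_) ?_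
    · have hr' := Finset.mem_range.mp (Finset.mem_coe.mp hr)
      exact Finset.mem_coe.mpr (hc' _ r (hf r (by omega)))
    · intro r hr r' hr' he
      have h1 := Finset.mem_range.mp (Finset.mem_coe.mp hr)
      have h2 := Finset.mem_range.mp (Finset.mem_coe.mp hr')
      have h3 := hf r (by omega)
      have h4 := hf r' (by omega)
      rw [he, h4] at h3
      simpa using h3.symm
  rw [Finset.card_range] at h1
  omega

end Q224.DS
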