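import Pool.Agent.Q224.DS.Graph
import Pool.Agent.Q224.ED.Red

/-!
# The reduction from the clique problem
-/

set_option autoImplicit false

namespace Q224.DS

open Pool.Agent.H633R2 Q224.RD Q224.ED

/-- Exchange of the two colours on the cells. -/
def sw (d : Cd) : Cd :=
  (d.1, (if d.1 = 4 then (d.2.1.2.1, d.2.1.1, d.2.1.2.2.2, d.2.1.2.2.1) else d.2.1), d.2.2)

/-- The blue relation. -/
def relBl (n : ℕ) (d e : Cd) : Bool := rel0 2 n d e

/-- The red relation. -/
def relRd (n : ℕ) (d e : Cd) : Bool := rel0 3 n (sw d) (sw e)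

/-- Both relations. -/
def relA (n : ℕ) (d e : Cd) : Bool := relBl n d e || relRd n d e

/-- The valid codes with tag at least 2. -/
def okB (n : ℕ) (T : ℕ → ℕ → ℕ → ℕ → Bool) (d : Cd) : Bool :=
  (decide (d.1 = 2) && (decide (d.2.1.2.1 = 0) && decide (d.2.1.2.2.2 = 0))) ||
  ((decide (d.1 = 3) && (decide (d.2.1.2.1 = 0) && decide (d.2.1.2.2.2 = 0))) ||
  (decide (d.1 = 4) && (decide (d.2.1.2.2.1 < n) && (decide (d.2.1.2.2.2 < n) &&
    (!T d.2.1.1 d.2.1.2.1 d.2.1.2.2.1 d.2.1.2.2.2 || decide (d.2.2 = 0))))))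

/-- The list of candidates. -/
def al (n k K : ℕ) : List Cd :=
  List.range 5 ×ˢ ((List.range k ×ˢ (List.range k ×ˢ
    (List.range (n + 1) ×ˢ List.range (n + 1)))) ×ˢ List.range (K + 1))

/-- The list of vertices. -/
def vl (n k K : ℕ) (T : ℕ → ℕ → ℕ → ℕ → Bool) : List Cd :=
  (0, (0, 0, 0, 0), 0) :: (1, (0, 0, 0, 0), 0) :: (al n k K).filter (okB n T)

section

variable {n k K : ℕ} {T : ℕ → ℕ → ℕ → ℕ → Bool}

theorem mem_vl {d : Cd} : d ∈ vl n k K T ↔ d = (0, (0, 0, 0, 0), 0) ∨ d = (1, (0, 0, 0, 0), 0) ∨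
    ((d.1 < 5 ∧ (d.2.1.1 < k ∧ d.2.1.2.1 < k ∧ d.2.1.2.2.1 ≤ n ∧ d.2.1.2.2.2 ≤ n) ∧ d.2.2 ≤ K) ∧
      okB n T d = true) := by
  obtain ⟨a, ⟨l, m, p, q⟩, r⟩ := d
  unfold vl al
  rw [List.mem_cons, List.mem_cons, List.mem_filter]
  simp only [List.mem_product, List.mem_range, Nat.lt_succ_iff]

theorem nodup_vl : (vl n k K T).Nodup := by
  unfold vl
  rw [List.nodup_cons, List.nodup_cons]
  refine ⟨?_, ?_, ?_⟩
  · rw [List.mem_cons, List.mem_filter]
    simp [okB]
  · rw [List.mem_filter]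
    simp [okB]
  · unfold al
    exact (List.nodup_range.product ((List.nodup_range.product (List.nodup_range.product
      (List.nodup_range.product List.nodup_range))).product List.nodup_range)).filter _

end

/-- The blue graph of an instance `(M, R, s, t, k)`. -/
def blueG (M R : List (List Bool)) : SimpleGraph (Fin M.length) where
  Adj u v := (graphOf M).Adj u v ∧ ¬ (entry R u v = true ∨ entry R v u = true)
  symm := ⟨fun _ _ h => ⟨h.1.symm, fun h2 => h.2 h2.symm⟩⟩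
  loopless := ⟨fun u h => (graphOf M).irrefl h.1⟩

/-- The red graph. -/
def redG (M R : List (List Bool)) : SimpleGraph (Fin M.length) where
  Adj u v := (graphOf M).Adj u v ∧ (entry R u v = true ∨ entry R v u = true)
  symm := ⟨fun _ _ h => ⟨h.1.symm, h.2.symm⟩⟩
  loopless := ⟨fun u h => (graphOf M).irrefl h.1⟩

/-- Dual separators. -/
def DST (x : List (List Bool) × List (List Bool) × ℕ × ℕ × ℕ) : Prop :=
  ∃ (hs : x.2.2.1 < x.1.length) (ht : x.2.2.2.1 < x.1.length), x.2.2.1 ≠ x.2.2.2.1 ∧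
    ∃ S : Finset (Fin x.1.length), S.card ≤ x.2.2.2.2 ∧
      Sep (blueG x.1 x.2.1) S ⟨x.2.2.1, hs⟩ ⟨x.2.2.2.1, ht⟩ ∧
      Sep (redG x.1 x.2.1) S ⟨x.2.2.1, hs⟩ ⟨x.2.2.2.1, ht⟩

section

variable {n k K : ℕ} {T : ℕ → ℕ → ℕ → ℕ → Bool}

/-- The two matrices. -/
abbrev MA (n k K : ℕ) (T : ℕ → ℕ → ℕ → ℕ → Bool) : List (List Bool) :=
  mtxOf (vl n k K T) (relA n)

/-- The matrix of colours. -/
abbrev MR (n k K : ℕ) (T : ℕ → ℕ → ℕ → ℕ → Bool) : List (List Bool) :=
  mtxOf (vl n k K T) (relRd n)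

theorem not_both {d e : Cd} (h1 : relBl n d e = true ∨ relBl n e d = true)
    (h2 : relRd n d e = true ∨ relRd n e d = true) : False := by
  obtain ⟨a, ⟨l, m, p, q⟩, r⟩ := d
  obtain ⟨a', ⟨l', m', p', q'⟩, r'⟩ := e
  unfold relBl at h1
  unfold relRd sw at h2
  rw [rel0_iff, rel0_iff] at h1 h2
  simp only at h1 h2
  by_cases ha : a = 4 <;> by_cases ha' : a' = 4
  · subst ha ha'
    simp at h1 h2
    omega
  · subst ha
    simp [ha'] at h1 h2
    omega
  · subst ha'
    simp [ha] at h1 h2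
    omega
  · simp [ha, ha'] at h1 h2
    omega

theorem irr {h : ℕ} (h0 : h ≠ 0) (h1 : h ≠ 1) (h4 : h ≠ 4) {d e : Cd}
    (hr : rel0 h n d e = true) : d ≠ e := by
  rintro rfl
  rw [rel0_iff] at hr
  omega

/-- The code of a vertex. -/
abbrev ph (n k K : ℕ) (T : ℕ → ℕ → ℕ → ℕ → Bool) (u : Fin (MA n k K T).length) : Cd :=
  phi (vl n k K T) (relA n) u

theorem entry_MR (u v : Fin (MA n k K T).length) :
    entry (MR n k K T) u v = relRd n (ph n k K T u) (ph n k K T v) :=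
  entry_nat _ _ (u.2.trans_eq (mtxOf_length _ _)) (v.2.trans_eq (mtxOf_length _ _))

theorem blue_adj (u v : Fin (MA n k K T).length) : (blueG (MA n k K T) (MR n k K T)).Adj u v ↔
    relBl n (ph n k K T u) (ph n k K T v) = true ∨
      relBl n (ph n k K T v) (ph n k K T u) = true := by
  change ((graphOf (MA n k K T)).Adj u v ∧ _) ↔ _
  rw [adj_mtxOf, entry_MR, entry_MR]
  unfold relA
  simp only [Bool.or_eq_true]
  constructor
  · rintro ⟨⟨-, h1⟩, h2⟩
    tauto
  · intro h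
    refine ⟨⟨?_, by tauto⟩, fun h2 => not_both h h2⟩
    rintro rfl
    rcases h with h | h <;> exact irr (by norm_num) (by norm_num) (by norm_num) h rfl

theorem red_adj (u v : Fin (MA n k K T).length) : (redG (MA n k K T) (MR n k K T)).Adj u v ↔
    relRd n (ph n k K T u) (ph n k K T v) = true ∨
      relRd n (ph n k K T v) (ph n k K T u) = true := by
  change ((graphOf (MA n k K T)).Adj u v ∧ _) ↔ _
  rw [adj_mtxOf, entry_MR, entry_MR]
  unfold relA
  simp only [Bool.or_eq_true]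
  constructor
  · rintro ⟨-, h2⟩
    exact h2
  · intro h
    refine ⟨⟨?_, by tauto⟩, h⟩
    rintro rfl
    rcases h with h | h <;> exact irr (by norm_num) (by norm_num) (by norm_num) h rfl

theorem len2 : 2 ≤ (MA n k K T).length := by
  rw [mtxOf_length]
  simp [vl]

theorem ph0 (h : 0 < (MA n k K T).length) : ph n k K T ⟨0, h⟩ = (0, (0, 0, 0, 0), 0) := rfl

theorem ph1 (h : 1 < (MA n k K T).length) : ph n k K T ⟨1, h⟩ = (1, (0, 0, 0, 0), 0) := rfl

theorem ph_mem (u : Fin (MA n k K T).length) : ph n k K T u ∈ vl n k K T := phi_mem _ _ u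

theorem ph_surj {d : Cd} (hd : d ∈ vl n k K T) : ∃ u, ph n k K T u = d := phi_surj _ hd

theorem ph_inj : Function.Injective (ph n k K T) := phi_inj nodup_vl _

theorem ph_lt {u : Fin (MA n k K T).length} (h : 1 < (ph n k K T u).1) :
    (ph n k K T u).2.1.1 < k ∧ (ph n k K T u).2.1.2.1 < k := by
  have h1 := mem_vl.mp (ph_mem u)
  rcases h1 with h1 | h1 | h1
  · rw [h1] at h
    simp at h
  · rw [h1] at h
    simp at h
  · exact ⟨h1.1.2.1.1, h1.1.2.1.2.1⟩

theorem sw_fst (d : Cd) : (sw d).1 = d.1 := rfl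

theorem sw_cell {d : Cd} (h : d.1 = 4) :
    (sw d).2.1 = (d.2.1.2.1, d.2.1.1, d.2.1.2.2.2, d.2.1.2.2.1) := by
  unfold sw
  rw [if_pos h]

theorem sw_ncell {d : Cd} (h : d.1 ≠ 4) : (sw d).2.1 = d.2.1 := by
  unfold sw
  rw [if_neg h]

theorem sw_lt {u : Fin (MA n k K T).length} (h : 1 < (sw (ph n k K T u)).1) :
    (sw (ph n k K T u)).2.1.1 < k ∧ (sw (ph n k K T u)).2.1.2.1 < k := by
  rw [sw_fst] at h
  have h1 := ph_lt h
  by_cases h4 : (ph n k K T u).1 = 4
  · rw [sw_cell h4]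
    exact ⟨h1.2, h1.1⟩
  · rw [sw_ncell h4]
    exact h1

theorem dst_of_tiling {x y : ℕ → ℕ} (hx : ∀ i < k, x i < n) (hy : ∀ i < k, y i < n)
    (hT : ∀ i < k, ∀ j < k, T i j (x i) (y j) = true) :
    DST (MA n k K T, MR n k K T, 0, 1, k * k) := by
  classical
  have hl := len2 (n := n) (k := k) (K := K) (T := T)
  refine ⟨by simp only; omega, by simp only; omega, by simp, ?_⟩
  set S : Finset (Fin (MA n k K T).length) := Finset.univ.filter fun u =>
    (ph n k K T u).1 = 4 ∧ (ph n k K T u).2.1.2.2.1 = x (ph n k K T u).2.1.1 ∧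
      (ph n k K T u).2.1.2.2.2 = y (ph n k K T u).2.1.2.1 with hS
  have hmem : ∀ u, u ∈ S ↔ ((ph n k K T u).1 = 4 ∧
      (ph n k K T u).2.1.2.2.1 = x (ph n k K T u).2.1.1 ∧
      (ph n k K T u).2.1.2.2.2 = y (ph n k K T u).2.1.2.1) := by
    intro u
    rw [hS, Finset.mem_filter]
    simp only [Finset.mem_univ, true_and]
  have h0 : (⟨0, by omega⟩ : Fin (MA n k K T).length) ∉ S := by
    rw [hmem, ph0]
    simp
  have h1 : (⟨1, by omega⟩ : Fin (MA n k K T).length) ∉ S := by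
    rw [hmem, ph1]
    simp
  refine ⟨S, ?_, ?_, ?_⟩
  · have h2 : (S.image fun u => ((ph n k K T u).2.1.1, (ph n k K T u).2.1.2.1)).card ≤ k * k := by
      have h3 : (S.image fun u => ((ph n k K T u).2.1.1, (ph n k K T u).2.1.2.1)) ⊆
          (Finset.range k) ×ˢ (Finset.range k) := by
        intro c hc
        rw [Finset.mem_image] at hc
        obtain ⟨u, hu, rfl⟩ := hc
        have h4 := ph_lt (u := u) (by rw [((hmem u).mp hu).1]; norm_num)
        rw [Finset.mem_product, Finset.mem_range, Finset.mem_range]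
        exact h4
      refine (Finset.card_le_card h3).trans ?_
      rw [Finset.card_product, Finset.card_range]
    rwa [Finset.card_image_of_injOn] at h2
    intro u hu v hv he
    obtain ⟨u1, u2, u3⟩ := (hmem u).mp (Finset.mem_coe.mp hu)
    obtain ⟨v1, v2, v3⟩ := (hmem v).mp (Finset.mem_coe.mp hv)
    apply ph_inj (n := n) (k := k) (K := K) (T := T)
    have hu4 := mem_vl.mp (ph_mem u)
    have hv4 := mem_vl.mp (ph_mem v)
    simp only [Prod.mk.injEq] at he
    obtain ⟨he1, he2⟩ := he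
    have key : ∀ u : Fin (MA n k K T).length, (ph n k K T u).1 = 4 →
        (ph n k K T u).2.1.2.2.1 = x (ph n k K T u).2.1.1 →
        (ph n k K T u).2.1.2.2.2 = y (ph n k K T u).2.1.2.1 → (ph n k K T u).2.2 = 0 := by
      intro u u1 u2 u3
      rcases mem_vl.mp (ph_mem u) with h5 | h5 | h5
      · rw [h5]
      · rw [h5]
      · have h6 := ph_lt (u := u) (by rw [u1]; norm_num)
        have h7 := h5.2
        unfold okB at h7
        rw [u1, u2, u3, hT _ h6.1 _ h6.2] at h7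
        simp only [Bool.or_eq_true, Bool.and_eq_true, decide_eq_true_eq, Bool.not_true,
          Bool.false_eq_true, false_or] at h7
        omega
    refine Prod.ext (u1.trans v1.symm) (Prod.ext (Prod.ext he1 (Prod.ext he2 (Prod.ext ?_ ?_))) ?_)
    · rw [u2, v2, he1]
    · rw [u3, v3, he2]
    · rw [key u u1 u2 u3, key v v1 v2 v3]
  · exact sep_of_sol (ψ := ph n k K T) (h := 2) (n := n) (k := k) (X := x) (Y := y)
      (by norm_num) (by norm_num) (by norm_num)
      hx hy (fun v hv => ph_lt hv) (fun u v huv => (blue_adj u v).mp huv)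
      (fun v v1 v2 v3 => (hmem v).mpr ⟨v1, v2, v3⟩) (by rw [ph0]) (by rw [ph1]) h0 h1
  · refine sep_of_sol (ψ := fun u => sw (ph n k K T u)) (h := 3) (n := n) (k := k) (X := y) (Y := x)
      (by norm_num) (by norm_num) (by norm_num)
      hy hx (fun v hv => sw_lt hv) (fun u v huv => (red_adj u v).mp huv)
      (fun v v1 v2 v3 => (hmem v).mpr ?_) (by rw [sw_fst, ph0]) (by rw [sw_fst, ph1]) h0 h1
    rw [sw_fst] at v1
    rw [sw_cell v1] at v2 v3
    exact ⟨v1, v3, v2⟩

theorem tiling_of_dst (h : DST (MA n k (k * k) T, MR n k (k * k) T, 0, 1, k * k)) :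
    ∃ x y : ℕ → ℕ, (∀ i < k, x i < n) ∧ (∀ i < k, y i < n) ∧
      ∀ i < k, ∀ j < k, T i j (x i) (y j) = true := by
  classical
  obtain ⟨h0, h1, -, S, hS, hb, hr⟩ := h
  simp only at h0 h1 hS hb hr
  have hal : ∀ a c, (∀ r ≤ k * k, (a, c, r) ∈ vl n k (k * k) T) →
      ∃ v, v ∉ S ∧ ∃ r, ph n k (k * k) T v = (a, c, r) := by
    intro a c hc
    exact exists_alive hS fun r hr => ph_surj (hc r hr)
  have hblue : ∀ l < k, ∃ p < n, ∀ m < k, ∃ q < n, ∀ v, (ph n k (k * k) T v).1 = 4 →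
      (ph n k (k * k) T v).2.1 = (l, m, p, q) → v ∈ S := by
    intro l hl
    refine row_cut (ψ := ph n k (k * k) T) (h := 2)
      (fun u v huv => (blue_adj u v).mpr (Or.inl huv)) (by rw [ph0]) (by rw [ph1]) hb ?_
    intro p hp
    obtain ⟨v, hv, r, hr⟩ := hal 2 (l, 0, p, 0) (by
      intro r hr
      rw [mem_vl]
      right; right
      refine ⟨⟨by norm_num, ⟨hl, lt_of_le_of_lt (Nat.zero_le _) hl, hp, Nat.zero_le _⟩, hr⟩, ?_⟩
      simp [okB])
    exact ⟨v, hv, by rw [hr], by rw [hr], by rw [hr]⟩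
  have hred : ∀ l < k, ∃ p < n, ∀ m < k, ∃ q < n, ∀ v, (ph n k (k * k) T v).1 = 4 →
      (ph n k (k * k) T v).2.1 = (m, l, q, p) → v ∈ S := by
    intro l hl
    obtain ⟨p, hp, h2⟩ := row_cut (ψ := fun u => sw (ph n k (k * k) T u)) (h := 3) (l := l)
      (k := k)
      (fun u v huv => (red_adj u v).mpr (Or.inl huv)) (by rw [sw_fst, ph0]) (by rw [sw_fst, ph1])
      hr (by
        intro p hp
        obtain ⟨v, hv, r, hr⟩ := hal 3 (l, 0, p, 0) (by
          intro r hr
          rw [mem_vl]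
          right; right
          refine ⟨⟨by norm_num, ⟨hl, lt_of_le_of_lt (Nat.zero_le _) hl, hp, Nat.zero_le _⟩, hr⟩, ?_⟩
          simp [okB])
        have h4 : (ph n k (k * k) T v).1 ≠ 4 := by rw [hr]; norm_num
        refine ⟨v, hv, ?_, ?_, ?_⟩
        · rw [sw_fst, hr]
        · rw [sw_ncell h4, hr]
        · rw [sw_ncell h4, hr])
    refine ⟨p, hp, fun m hm => ?_⟩
    obtain ⟨q, hq, h3⟩ := h2 m hm
    refine ⟨q, hq, fun v v1 v2 => h3 v (by rw [sw_fst, v1]) ?_⟩
    rw [sw_cell v1, v2]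
  -- every fully deleted cell is a single vertex
  have hone : ∀ i < k, ∀ j < k, ∀ x < n, ∀ y < n,
      (∀ v, (ph n k (k * k) T v).1 = 4 → (ph n k (k * k) T v).2.1 = (i, j, x, y) → v ∈ S) →
      T i j x y = true ∧ ∃ v ∈ S, (ph n k (k * k) T v) = (4, (i, j, x, y), 0) := by
    intro i hi j hj x hx y hy hd
    have hT : T i j x y = true := by
      by_contra hT
      rw [Bool.not_eq_true] at hT
      obtain ⟨v, hv, r, hr⟩ := hal 4 (i, j, x, y) (by
        intro r hr
        rw [mem_vl]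
        right; right
        refine ⟨⟨by norm_num, ⟨hi, hj, hx.le, hy.le⟩, hr⟩, ?_⟩
        simp [okB, hT, hx, hy])
      exact hv (hd v (by rw [hr]) (by rw [hr]))
    refine ⟨hT, ?_⟩
    obtain ⟨v, hv⟩ := ph_surj (n := n) (k := k) (K := k * k) (T := T)
      (d := (4, (i, j, x, y), 0)) (by
        rw [mem_vl]
        right; right
        refine ⟨⟨by norm_num, ⟨hi, hj, hx.le, hy.le⟩, by simp⟩, ?_⟩
        simp [okB, hx, hy])
    exact ⟨v, hd v (by rw [hv]) (by rw [hv]), hv⟩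
  choose! x hx hx' using hblue
  choose! y hy hy' using hred
  refine ⟨x, y, hx, hy, ?_⟩
  -- the map from the separator to the cells
  set f : Fin (MA n k (k * k) T).length → ℕ × ℕ := fun u =>
    ((ph n k (k * k) T u).2.1.1, (ph n k (k * k) T u).2.1.2.1) with hf
  have hsurj : Set.SurjOn f (S : Set _) ((Finset.range k ×ˢ Finset.range k : Finset (ℕ × ℕ)) :
      Set (ℕ × ℕ)) := by
    rintro ⟨i, j⟩ hij
    rw [Finset.mem_coe, Finset.mem_product, Finset.mem_range, Finset.mem_range] at hij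
    obtain ⟨q, hq, h2⟩ := hx' i hij.1 j hij.2
    obtain ⟨-, v, hv, hv'⟩ := hone i hij.1 j hij.2 (x i) (hx i hij.1) q hq h2
    refine ⟨v, Finset.mem_coe.mpr hv, ?_⟩
    simp only [hf]
    rw [hv']
  have hinj : ∀ u ∈ S, ∀ v ∈ S, f u ∈ Finset.range k ×ˢ Finset.range k → f u = f v → u = v := by
    intro u hu v hv hfu he
    by_contra hne
    have h2 : Set.SurjOn f ((S.erase u : Finset _) : Set _)
        ((Finset.range k ×ˢ Finset.range k : Finset (ℕ × ℕ)) : Set (ℕ × ℕ)) := by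
      intro c hc
      obtain ⟨w, hw, hwc⟩ := hsurj hc
      by_cases hwu : w = u
      · refine ⟨v, Finset.mem_coe.mpr (Finset.mem_erase.mpr ⟨fun h => hne h.symm, hv⟩), ?_⟩
        rw [← he, ← hwu, hwc]
      · exact ⟨w, Finset.mem_coe.mpr (Finset.mem_erase.mpr ⟨hwu, Finset.mem_coe.mp hw⟩), hwc⟩
    have h3 := Finset.card_le_card_of_surjOn f h2
    rw [Finset.card_product, Finset.card_range, Finset.card_erase_of_mem hu] at h3
    have h4 : 0 < S.card := Finset.card_pos.mpr ⟨u, hu⟩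
    omega
  intro i hi j hj
  obtain ⟨q, hq, h2⟩ := hx' i hi j hj
  obtain ⟨q', hq', h3⟩ := hy' j hj i hi
  obtain ⟨hT, v, hv, hv'⟩ := hone i hi j hj (x i) (hx i hi) q hq h2
  obtain ⟨-, v2, hv2, hv2'⟩ := hone i hi j hj q' hq' (y j) (hy j hj) h3
  have he : v = v2 := by
    refine hinj v hv v2 hv2 ?_ ?_
    · simp only [hf]
      rw [hv', Finset.mem_product, Finset.mem_range, Finset.mem_range]
      exact ⟨hi, hj⟩
    · simp only [hf]
      rw [hv', hv2']
  rw [← he, hv'] at hv2'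
  simp only [Prod.mk.injEq, true_and, and_true] at hv2'
  rw [hv2'.2] at hT
  exact hT

end

/-- The reduction. -/
def red (x : List (List Bool) × ℕ) : List (List Bool) × List (List Bool) × ℕ × ℕ × ℕ :=
  (MA x.1.length (min x.2 (x.1.length + 1))
      (min x.2 (x.1.length + 1) * min x.2 (x.1.length + 1)) (SM x.1),
    MR x.1.length (min x.2 (x.1.length + 1))
      (min x.2 (x.1.length + 1) * min x.2 (x.1.length + 1)) (SM x.1), 0, 1,
    min x.2 (x.1.length + 1) * min x.2 (x.1.length + 1))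

theorem red_iff (x : List (List Bool) × ℕ) : HasClique x ↔ DST (red x) := by
  obtain ⟨M, k⟩ := x
  rw [clique_min, clique_iff]
  constructor
  · rintro ⟨x, y, hx, hy, h⟩
    exact dst_of_tiling hx hy h
  · exact tiling_of_dst

theorem red_param (x : List (List Bool) × ℕ) : (red x).2.2.2.2 ≤ x.2 * x.2 := by
  unfold red
  have h1 : min x.2 (x.1.length + 1) ≤ x.2 := min_le_left _ _
  exact Nat.mul_le_mul h1 h1

end Q224.DS
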