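import Pool.Agent.Q224.DS.Red
import Pool.Agent.Q224.ED.Time

/-!
# The reduction is computable in polynomial time
-/

set_option autoImplicit false

namespace Pool.Agent.NPC.Q224DS

open _root_.Q224.DS _root_.Q224.RD Pool.Agent.NPC.H628F Pool.Agent.H628R2.Forb
open _root_.Q224.ED (SM)
open Pool.Agent.H633R2 Pool.Agent.NPC.Q224RD
open Pool.Agent.NPC.Q224ED (p_SM)

variable {α : Type} [TEnc α]

theorem p_product {β γ : Type} [TEnc β] [TEnc γ] {l : α → List β} {m : α → List γ}
    (hl : Poly l) (hm : Poly m) : Poly (fun a => l a ×ˢ m a) := by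
  have h : Poly (fun a => (l a).flatMap fun b => (m a).map fun c => (b, c)) := by
    refine Poly.flatMap (F := fun (a : α) (b : β) => (m a).map fun c => (b, c)) hl ?_
    exact Poly.map (F := fun (a : α × β) (c : γ) => (a.2, c)) (hm.comp p_fst)
      (Poly.pair (Poly.snd p_fst) p_snd)
  exact h

theorem p_al {n k K : α → ℕ} (hn : UPoly n) (hk : UPoly k) (hK : UPoly K) :
    Poly (fun a => al (n a) (k a) (K a)) := by
  unfold al
  have hn1 : UPoly (fun a => n a + 1) := UPoly.add hn (UPoly.const 1)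
  have hK1 : UPoly (fun a => K a + 1) := UPoly.add hK (UPoly.const 1)
  exact p_product (Poly.const _) (p_product (p_product hk.range (p_product hk.range
    (p_product hn1.range hn1.range))) hK1.range)

theorem p_okB {M : α → List (List Bool)} {n : α → ℕ} {d : α → Cd} (hM : Poly M) (hn : Poly n)
    (hd : Poly d) : Poly (fun a => okB (n a) (SM (M a)) (d a)) := by
  unfold okB
  have h1 := Poly.fst hd
  have hc := Poly.fst (Poly.snd hd)
  have hi := Poly.fst hc
  have hj := Poly.fst (Poly.snd hc)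
  have hx := Poly.fst (Poly.snd (Poly.snd hc))
  have hy := Poly.snd (Poly.snd (Poly.snd hc))
  have hr := Poly.snd (Poly.snd hd)
  have z : Poly (fun _ : α => (0 : ℕ)) := Poly.const 0
  exact Poly.or (Poly.and (Poly.decide_eq h1 (Poly.const 2)) (Poly.and (Poly.decide_eq hj z)
      (Poly.decide_eq hy z)))
    (Poly.or (Poly.and (Poly.decide_eq h1 (Poly.const 3)) (Poly.and (Poly.decide_eq hj z)
      (Poly.decide_eq hy z)))
    (Poly.and (Poly.decide_eq h1 (Poly.const 4)) (Poly.and (Poly.decide_lt hx hn)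
      (Poly.and (Poly.decide_lt hy hn) (Poly.or (Poly.not (p_SM hM hi hj hx hy))
        (Poly.decide_eq hr z))))))

theorem p_vl {M : α → List (List Bool)} {n k K : α → ℕ} (hM : Poly M) (hn : UPoly n)
    (hk : UPoly k) (hK : UPoly K) : Poly (fun a => vl (n a) (k a) (K a) (SM (M a))) := by
  unfold vl
  refine Poly.cons (Poly.const _) (Poly.cons (Poly.const _) ?_)
  exact Poly.filter (p := fun (a : α) (d : Cd) => okB (n a) (SM (M a)) d) (p_al hn hk hK)
    (p_okB (hM.comp p_fst) (hn.toPoly.comp p_fst) p_snd)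

theorem p_rel0 {h : ℕ} {n : α → ℕ} {d e : α → Cd} (hn : Poly n) (hd : Poly d) (he : Poly e) :
    Poly (fun a => rel0 h (n a) (d a) (e a)) := by
  unfold rel0
  have d1 := Poly.fst hd
  have dc := Poly.fst (Poly.snd hd)
  have di := Poly.fst dc
  have dj := Poly.fst (Poly.snd dc)
  have dx := Poly.fst (Poly.snd (Poly.snd dc))
  have dy := Poly.snd (Poly.snd (Poly.snd dc))
  have e1 := Poly.fst he
  have ec := Poly.fst (Poly.snd he)
  have ei := Poly.fst ec
  have ej := Poly.fst (Poly.snd ec)
  have ex := Poly.fst (Poly.snd (Poly.snd ec))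
  have ey := Poly.snd (Poly.snd (Poly.snd ec))
  have cst : ∀ c : ℕ, Poly (fun _ : α => c) := fun c => Poly.const c
  exact Poly.or (Poly.and (Poly.decide_eq d1 (cst 0)) (Poly.and (Poly.decide_eq e1 (cst h))
      (Poly.decide_eq ex (cst 0))))
    (Poly.or (Poly.and (Poly.decide_eq d1 (cst h)) (Poly.and (Poly.decide_eq e1 (cst 1))
      (Poly.decide_eq dx hn)))
    (Poly.or (Poly.and (Poly.decide_eq d1 (cst h)) (Poly.and (Poly.decide_eq e1 (cst 4))
      (Poly.and (Poly.decide_eq ei di) (Poly.and (Poly.decide_eq ex dx)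
        (Poly.decide_eq ey (cst 0))))))
    (Poly.or (Poly.and (Poly.decide_eq d1 (cst 4)) (Poly.and (Poly.decide_eq e1 (cst h))
      (Poly.and (Poly.decide_eq ei di) (Poly.and (Poly.decide_eq ex (Poly.succ dx))
        (Poly.decide_eq (Poly.succ dy) hn)))))
    (Poly.and (Poly.decide_eq d1 (cst 4)) (Poly.and (Poly.decide_eq e1 (cst 4))
      (Poly.and (Poly.decide_eq ei di) (Poly.and (Poly.decide_eq ej dj)
        (Poly.and (Poly.decide_eq ex dx) (Poly.decide_eq ey (Poly.succ dy))))))))))

theorem p_sw {d : α → Cd} (hd : Poly d) : Poly (fun a => sw (d a)) := by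
  unfold sw
  have d1 := Poly.fst hd
  have dc := Poly.fst (Poly.snd hd)
  have di := Poly.fst dc
  have dj := Poly.fst (Poly.snd dc)
  have dx := Poly.fst (Poly.snd (Poly.snd dc))
  have dy := Poly.snd (Poly.snd (Poly.snd dc))
  exact Poly.pair d1 (Poly.pair (Poly.ite (Poly.decide_eq d1 (Poly.const 4))
    (Poly.pair dj (Poly.pair di (Poly.pair dy dx))) dc) (Poly.snd (Poly.snd hd)))

theorem p_relRd {n : α → ℕ} {d e : α → Cd} (hn : Poly n) (hd : Poly d) (he : Poly e) :
    Poly (fun a => relRd (n a) (d a) (e a)) := by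
  unfold relRd
  exact p_rel0 hn (p_sw hd) (p_sw he)

theorem p_relA {n : α → ℕ} {d e : α → Cd} (hn : Poly n) (hd : Poly d) (he : Poly e) :
    Poly (fun a => relA (n a) (d a) (e a)) := by
  unfold relA relBl
  exact Poly.or (p_rel0 hn hd he) (p_relRd hn hd he)

theorem p_red : Poly red := by
  have hM : Poly (fun x : List (List Bool) × ℕ => x.1) := p_fst
  have hn : UPoly (fun x : List (List Bool) × ℕ => x.1.length) := UPoly.length hM
  have hn1 : UPoly (fun x : List (List Bool) × ℕ => x.1.length + 1) :=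
    UPoly.add hn (UPoly.const 1)
  have hk : UPoly (fun x : List (List Bool) × ℕ => min x.2 (x.1.length + 1)) :=
    UPoly.of_le (Poly.min p_snd hn1.toPoly) hn1 (fun _ => min_le_right _ _)
  have hK : UPoly (fun x : List (List Bool) × ℕ =>
      min x.2 (x.1.length + 1) * min x.2 (x.1.length + 1)) := UPoly.mul hk hk
  have hv : Poly (fun x : List (List Bool) × ℕ => vl x.1.length (min x.2 (x.1.length + 1))
      (min x.2 (x.1.length + 1) * min x.2 (x.1.length + 1)) (SM x.1)) := p_vl hM hn hk hK
  unfold red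
  refine Poly.pair ?_ (Poly.pair ?_ (Poly.pair (Poly.const 0) (Poly.pair (Poly.const 1)
    hK.toPoly)))
  · unfold MA mtxOf
    refine Poly.map (F := fun (x : List (List Bool) × ℕ) (d : Cd) =>
      (vl x.1.length (min x.2 (x.1.length + 1))
      (min x.2 (x.1.length + 1) * min x.2 (x.1.length + 1)) (SM x.1)).map fun e =>
        relA x.1.length d e) hv ?_
    refine Poly.map (F := fun (x : (List (List Bool) × ℕ) × Cd) (e : Cd) =>
      relA x.1.1.length x.2 e) (hv.comp p_fst) ?_
    have h0 : Poly (fun x : ((List (List Bool) × ℕ) × Cd) × Cd => x.1.1) := Poly.fst p_fst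
    exact p_relA (hn.toPoly.comp h0) (Poly.snd p_fst) p_snd
  · unfold MR mtxOf
    refine Poly.map (F := fun (x : List (List Bool) × ℕ) (d : Cd) =>
      (vl x.1.length (min x.2 (x.1.length + 1))
      (min x.2 (x.1.length + 1) * min x.2 (x.1.length + 1)) (SM x.1)).map fun e =>
        relRd x.1.length d e) hv ?_
    refine Poly.map (F := fun (x : (List (List Bool) × ℕ) × Cd) (e : Cd) =>
      relRd x.1.1.length x.2 e) (hv.comp p_fst) ?_
    have h0 : Poly (fun x : ((List (List Bool) × ℕ) × Cd) × Cd => x.1.1) := Poly.fst p_fst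
    exact p_relRd (hn.toPoly.comp h0) (Poly.snd p_fst) p_snd

/-- Dual separators for two terminals are W[1]-hard. -/
theorem w1Hard : W1Hard (fun x : List (List Bool) × List (List Bool) × ℕ × ℕ × ℕ =>
    x.2.2.2.2) DST := by
  refine W1Hard.of_clique ⟨red, fun n => n * n, FptTime.of_poly p_red, ?_,
    fun x => ⟨red_iff x, red_param x⟩⟩
  exact (Primrec.nat_mul.comp Primrec.id Primrec.id).to_comp

end Pool.Agent.NPC.Q224DS
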